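import Pool.Graph.R_seed8.H136R4.Final
import Pool.Graph.R_seed8.H136R4.AdmB
import Pool.Graph.R_seed8.H136R4.Bound
import Pool.Graph.R_seed8.H607R4.GLSplit
import Pool.Graph.R_seed8.H136R4.MAX
import Pool.Graph.R_seed8.H136R4.Low
import Pool.Graph.R_seed8.H136R4.LIP
import Pool.Graph.R_seed8.H136R4.Elim
import Pool.Graph.R_seed8.H136R4.SaB
import Pool.Graph.R_seed8.H136R4.Step
import Pool.Graph.R_seed8.H136R4.SEQ
import Pool.Graph.R_seed8.H136R4.LIM
import Pool.Graph.R_seed8.H136R4.Der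
import Pool.Graph.R_seed8.H136R4.DISC
import Pool.Graph.R_seed8.H136R4.Trunc
import Pool.Graph.R_seed8.H136R4.HULLGL
import Pool.Graph.R_seed8.H136R4.KERN
import Pool.Graph.R_seed8.H136R4.GL

/-!
# Gleason parts without derivations or discs, in every dimension except two
-/

set_option autoImplicit false

namespace Pool.Agent.Results.MP_63d1a1_an.EveryDimension

open Pool.Agent

/-- the polynomial hull of `X ⊆ ℂ^N` -/
def hull {N : ℕ} (X : Set (Fin N → ℂ)) : Set (Fin N → ℂ) :=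
  {z | ∀ p : MvPolynomial (Fin N) ℂ, ∃ x ∈ X, ‖MvPolynomial.eval z p‖ ≤ ‖MvPolynomial.eval x p‖}

/-- `E` contains no analytic disc: every holomorphic map of the unit disc into `E` is constant -/
def NoDisc {N : ℕ} (E : Set (Fin N → ℂ)) : Prop :=
  ∀ f : ℂ → (Fin N → ℂ), DifferentiableOn ℂ f (Metric.ball (0 : ℂ) 1) →
    (∀ ζ ∈ Metric.ball (0 : ℂ) 1, f ζ ∈ E) → ∃ c : Fin N → ℂ, ∀ ζ ∈ Metric.ball (0 : ℂ) 1, f ζ = c

/-- `P(X)` has no nonzero bounded point derivation at any point of the hull -/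
def NoDerivation {N : ℕ} (X : Set (Fin N → ℂ)) : Prop :=
  ∀ z ∈ hull X, ∀ D : MvPolynomial (Fin N) ℂ →ₗ[ℂ] ℂ,
    (∀ p q : MvPolynomial (Fin N) ℂ,
      D (p * q) = MvPolynomial.eval z p * D q + MvPolynomial.eval z q * D p) →
    (∃ C : ℝ, ∀ p : MvPolynomial (Fin N) ℂ, ∀ M : ℝ,
      (∀ x ∈ X, ‖MvPolynomial.eval x p‖ ≤ M) → ‖D p‖ ≤ C * M) →
    D = 0

/-- the Gleason part of `z` has a second point -/
def NontrivialPart {N : ℕ} (X : Set (Fin N → ℂ)) (z : Fin N → ℂ) : Prop :=
  ∃ w ∈ hull X, w ≠ z ∧ ∃ c : ℝ, c < 2 ∧ ∀ p : MvPolynomial (Fin N) ℂ,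
    (∀ x ∈ X, ‖MvPolynomial.eval x p‖ ≤ 1) →
      ‖MvPolynomial.eval z p - MvPolynomial.eval w p‖ ≤ c

/-! ### Dimension three (library) -/

theorem three : ∃ X : Set (Fin 3 → ℂ), IsCompact X ∧ NoDisc (hull X) ∧ NoDerivation X ∧
    ∃ z ∈ hull X, z ∉ X ∧ NontrivialPart X z := by
  have hB := H136R4.boundStmt
  have hE := H136R4.extStmt
  have hS := H607R4.GLSplit.splitStmt
  have hM := H136R4.maxStmt hS
  have hLow := H136R4.Low.lowStmt hM
  have hLip := H136R4.lipStmt
  have hElim := H136R4.elimStmt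
  have hSA := H136R4.saStmtB hB hLip hElim
  have hStep := H136R4.stepStmt hB hS hLow hLip
  have hSeq := H136R4.seqStmt hB hLip hSA hStep
  have hLim := H136R4.limStmt hB hSeq
  have hDer := H136R4.derStmt hB
  have hDisc := H136R4.discStmt
  have hTr := H136R4.truncStmt hB
  have hC := H136R4.compactStmt hB
  have hHull := H136R4.hullStmt hB hE hM hTr hC
  have hGl := H136R4.glStmt hM H136R4.kernStmt
  have hG := H136R4.gleasonStmt hB hE hTr hGl
  obtain ⟨a, ha⟩ := H136R4.admStmtB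
  obtain ⟨ε, hε⟩ := hLim a ha
  obtain ⟨c, hc, y, hy, y', hy', hy0, hne, hgl⟩ := hG a ha ε hε
  have hnot : H136R4.Phi ε y ∉ H136R4.XX a ε := by
    rintro ⟨v, _, hv1, hv⟩
    have h0 := congrFun hv 0
    simp only [H136R4.Phi, Matrix.cons_val_zero] at h0
    rw [h0] at hy0
    linarith
  refine ⟨H136R4.XX a ε, hC a ha ε hε, ?_, hDer a ha ε hε, H136R4.Phi ε y,
    hHull a ha ε hε y hy, hnot, H136R4.Phi ε y', hHull a ha ε hε y' hy', hne, c, hc, hgl⟩
  intro f hf hmaps
  exact hDisc (H136R4.XX a ε) (hDer a ha ε hε) f hf hmaps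

/-! ### Adding zero coordinates -/

section pad

variable {m N : ℕ} (h : m ≤ N)

/-- padding by zeros -/
noncomputable def pad (x : Fin m → ℂ) : Fin N → ℂ := fun j => if hj : j.1 < m then x ⟨j.1, hj⟩ else 0

/-- the first coordinates -/
def cut (z : Fin N → ℂ) : Fin m → ℂ := fun i => z (Fin.castLE h i)

/-- the truncated polynomial -/
noncomputable def tr (m : ℕ) {N : ℕ} : MvPolynomial (Fin N) ℂ →ₐ[ℂ] MvPolynomial (Fin m) ℂ :=
  MvPolynomial.aeval fun j : Fin N => if hj : j.1 < m then MvPolynomial.X ⟨j.1, hj⟩ else 0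

theorem cut_pad (x : Fin m → ℂ) : cut h (pad (N := N) x) = x := by
  funext i; simp [cut, pad]

theorem eval_tr (x : Fin m → ℂ) (p : MvPolynomial (Fin N) ℂ) :
    MvPolynomial.eval x (tr m p) = MvPolynomial.eval (pad x) p := by
  induction p using MvPolynomial.induction_on with
  | C a => simp [tr]
  | add p q hp hq => rw [map_add, map_add, map_add, hp, hq]
  | mul_X p j hp =>
    rw [map_mul, map_mul, map_mul, hp, MvPolynomial.eval_X]
    congr 1
    simp only [tr, MvPolynomial.aeval_X, pad]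
    split_ifs <;> simp

theorem eval_rename (z : Fin N → ℂ) (p : MvPolynomial (Fin m) ℂ) :
    MvPolynomial.eval z (MvPolynomial.rename (Fin.castLE h) p) =
      MvPolynomial.eval (cut h z) p := by
  rw [MvPolynomial.eval_rename]; rfl

theorem continuous_pad : Continuous (pad : (Fin m → ℂ) → (Fin N → ℂ)) := by
  refine continuous_pi fun j => ?_
  unfold pad
  by_cases hj : j.1 < m
  · simpa [hj] using continuous_apply _
  · simpa [hj] using continuous_const

theorem pad_injective (h : m ≤ N) : Function.Injective (pad : (Fin m → ℂ) → (Fin N → ℂ)) := by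
  intro x y hxy
  rw [← cut_pad h x, hxy, cut_pad]

theorem hull_pad {X : Set (Fin m → ℂ)} {z : Fin N → ℂ} (hz : z ∈ hull (pad '' X)) :
    z = pad (cut h z) ∧ cut h z ∈ hull X := by
  constructor
  · funext j
    by_cases hj : j.1 < m
    · simp [pad, cut, hj]
    · obtain ⟨_, ⟨x, hx, rfl⟩, hle⟩ := hz (MvPolynomial.X j)
      rw [MvPolynomial.eval_X, MvPolynomial.eval_X] at hle
      have h0 : (pad x : Fin N → ℂ) j = 0 := by simp [pad, hj]
      rw [h0, norm_zero] at hle
      rw [norm_le_zero_iff.1 hle]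
      simp [pad, hj]
  · intro p
    obtain ⟨_, ⟨x, hx, rfl⟩, hle⟩ := hz (MvPolynomial.rename (Fin.castLE h) p)
    rw [eval_rename, eval_rename, cut_pad] at hle
    exact ⟨x, hx, hle⟩

theorem pad_hull {X : Set (Fin m → ℂ)} {z : Fin m → ℂ} (hz : z ∈ hull X) :
    (pad z : Fin N → ℂ) ∈ hull (pad '' X) := by
  intro p
  obtain ⟨x, hx, hle⟩ := hz (tr m p)
  rw [eval_tr, eval_tr] at hle
  exact ⟨_, ⟨x, hx, rfl⟩, hle⟩

theorem pad_all {X : Set (Fin m → ℂ)} (h : m ≤ N) (hX : IsCompact X) (hd : NoDisc (hull X))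
    (hD : NoDerivation X) (hp : ∃ z ∈ hull X, z ∉ X ∧ NontrivialPart X z) :
    ∃ X' : Set (Fin N → ℂ), IsCompact X' ∧ NoDisc (hull X') ∧ NoDerivation X' ∧
      ∃ z ∈ hull X', z ∉ X' ∧ NontrivialPart X' z := by
  refine ⟨pad '' X, hX.image continuous_pad, ?_, ?_, ?_⟩
  · intro f hf hmap
    obtain ⟨c, hc⟩ := hd (fun ζ => cut h (f ζ)) (by
        refine differentiableOn_pi.2 fun i => ?_
        exact (differentiableOn_pi.1 hf) (Fin.castLE h i))
      (fun ζ hζ => (hull_pad h (hmap ζ hζ)).2)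
    refine ⟨pad c, fun ζ hζ => ?_⟩
    rw [(hull_pad h (hmap ζ hζ)).1]
    exact congrArg pad (hc ζ hζ)
  · rintro z hz D hD1 ⟨C, hC⟩
    obtain ⟨hz1, hz2⟩ := hull_pad h hz
    have key : ∀ p : MvPolynomial (Fin N) ℂ, (∀ x ∈ X, MvPolynomial.eval (pad x) p = 0) →
        D p = 0 := by
      intro p hp0
      have := hC p 0 (by
        rintro _ ⟨x, hx, rfl⟩
        rw [hp0 x hx, norm_zero])
      rw [mul_zero] at this
      exact norm_le_zero_iff.1 this
    have h0 : D.comp (MvPolynomial.rename (Fin.castLE h)).toLinearMap = 0 := by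
      refine hD (cut h z) hz2 _ ?_ ⟨C, ?_⟩
      · intro p q
        simp only [LinearMap.comp_apply, AlgHom.toLinearMap_apply, map_mul]
        rw [hD1, eval_rename, eval_rename]
      · intro p M hM
        simp only [LinearMap.comp_apply, AlgHom.toLinearMap_apply]
        apply hC
        rintro _ ⟨x, hx, rfl⟩
        rw [eval_rename, cut_pad]
        exact hM x hx
    refine LinearMap.ext fun p => ?_
    have h1 : D (p - MvPolynomial.rename (Fin.castLE h) (tr m p)) = 0 := by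
      apply key
      intro x hx
      rw [map_sub, eval_rename, cut_pad, eval_tr, sub_self]
    have h2 := LinearMap.congr_fun h0 (tr m p)
    simp only [LinearMap.comp_apply, AlgHom.toLinearMap_apply, LinearMap.zero_apply] at h2
    rw [map_sub, h2, sub_zero] at h1
    exact h1
  · obtain ⟨z, hz, hzX, w, hw, hwz, c, hc, hgl⟩ := hp
    refine ⟨pad z, pad_hull hz, ?_, pad w, pad_hull hw, ?_, c, hc, ?_⟩
    · rintro ⟨x, hx, hxz⟩
      exact hzX (pad_injective h hxz ▸ hx)
    · exact fun heq => hwz (pad_injective h heq)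
    · intro p hp1
      rw [← eval_tr, ← eval_tr]
      apply hgl
      intro x hx
      rw [eval_tr]
      exact hp1 _ ⟨x, hx, rfl⟩

end pad

/-! ### Dimension one -/

theorem one_dim {K : Set ℂ} (hK : IsCompact K) {z0 : ℂ} (hz0 : z0 ∉ K)
    (hh : ∀ q : Polynomial ℂ, ∃ x ∈ K, ‖q.eval z0‖ ≤ ‖q.eval x‖) :
    ∃ r : ℝ, 0 < r ∧ ∀ w : ℂ, ‖w - z0‖ < r → w ∉ K ∧
      ∀ q : Polynomial ℂ, ∃ x ∈ K, ‖q.eval w‖ ≤ ‖q.eval x‖ := by
  have hne : K.Nonempty := by obtain ⟨x, hx, _⟩ := hh 1; exact ⟨x, hx⟩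
  obtain ⟨x0, hx0, hmin⟩ := hK.exists_isMinOn hne
    (f := fun x => ‖x - z0‖) (by fun_prop)
  have hd : 0 < ‖x0 - z0‖ := norm_pos_iff.2 (sub_ne_zero.2 fun h => hz0 (h ▸ hx0))
  set d := ‖x0 - z0‖ with hd_def
  have hdist : ∀ x ∈ K, d ≤ ‖x - z0‖ := fun x hx => hmin hx
  refine ⟨d / 2, by positivity, fun w hw => ?_⟩
  have hxw : ∀ x ∈ K, d / 2 ≤ ‖x - w‖ := by
    intro x hx
    have h1 := hdist x hx
    have h2 : ‖x - z0‖ ≤ ‖x - w‖ + ‖w - z0‖ := norm_sub_le_norm_sub_add_norm_sub x w z0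
    linarith
  refine ⟨fun hwK => ?_, ?_⟩
  · have := hxw w hwK
    rw [sub_self, norm_zero] at this
    linarith
  intro q
  by_contra hcon
  push Not at hcon
  have hqw : q.eval w ≠ 0 := by
    obtain ⟨x, hx⟩ := hne
    exact norm_pos_iff.1 ((norm_nonneg _).trans_lt (hcon x hx))
  -- normalise
  let p : Polynomial ℂ := Polynomial.C (q.eval w)⁻¹ * q
  have hpw : p.eval w = 1 := by simp [p, hqw]
  have hpx : ∀ x ∈ K, ‖p.eval x‖ < 1 := by
    intro x hx
    simp only [p, Polynomial.eval_mul, Polynomial.eval_C, norm_mul, norm_inv]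
    rw [inv_mul_lt_iff₀ (norm_pos_iff.2 hqw), mul_one]
    exact hcon x hx
  obtain ⟨x1, hx1, hmax⟩ := hK.exists_isMaxOn hne (f := fun x => ‖p.eval x‖)
    (p.continuous.norm.continuousOn)
  set ρ := ‖p.eval x1‖ with hρ
  have hρ1 : ρ < 1 := hpx x1 hx1
  have hρ0 : 0 ≤ ρ := norm_nonneg _
  set θ := ‖w - z0‖ / (d / 2) with hθ
  have hθ1 : θ < 1 := by rw [hθ, div_lt_one (by positivity)]; exact hw
  have hθ0 : 0 ≤ θ := by positivity
  obtain ⟨n, hn⟩ := exists_pow_lt_of_lt_one (show 0 < (1 - θ) / 2 by linarith) hρ1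
  -- the quotient
  have hdvd : (Polynomial.X - Polynomial.C w) ∣ (1 - p ^ n) := by
    rw [Polynomial.dvd_iff_isRoot]
    simp [Polynomial.IsRoot, hpw]
  obtain ⟨s, hs⟩ := hdvd
  have hsx : ∀ x, (x - w) * s.eval x = 1 - p.eval x ^ n := by
    intro x
    have := congrArg (Polynomial.eval x) hs
    simp only [Polynomial.eval_sub, Polynomial.eval_one, Polynomial.eval_pow,
      Polynomial.eval_mul, Polynomial.eval_X, Polynomial.eval_C] at this
    exact this.symm
  obtain ⟨x, hx, hle⟩ := hh (1 - (Polynomial.X - Polynomial.C z0) * s)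
  simp only [Polynomial.eval_sub, Polynomial.eval_one, Polynomial.eval_mul, Polynomial.eval_X,
    Polynomial.eval_C, sub_self, zero_mul, sub_zero, norm_one] at hle
  have hxw0 : x - w ≠ 0 := by
    intro h0
    have := hxw x hx
    rw [h0, norm_zero] at this
    linarith
  have e1 : 1 - (x - z0) * s.eval x =
      p.eval x ^ n - (w - z0) / (x - w) * (1 - p.eval x ^ n) := by
    have e2 : s.eval x = (1 - p.eval x ^ n) / (x - w) := by
      rw [eq_div_iff hxw0, ← hsx x, mul_comm]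
    rw [e2]
    field_simp
    ring
  have hpn : ‖p.eval x ^ n‖ ≤ ρ ^ n := by
    rw [norm_pow]
    exact pow_le_pow_left₀ (norm_nonneg _) (hmax hx) n
  have hq : ‖(w - z0) / (x - w)‖ ≤ θ := by
    rw [norm_div, hθ]
    exact div_le_div_of_nonneg_left (norm_nonneg _) (by positivity) (hxw x hx)
  have hfin : ‖1 - (x - z0) * s.eval x‖ ≤ ρ ^ n + θ * (1 + ρ ^ n) := by
    rw [e1]
    refine (norm_sub_le _ _).trans (add_le_add hpn ?_)
    rw [norm_mul]
    refine mul_le_mul hq ?_ (norm_nonneg _) hθ0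
    refine (norm_sub_le _ _).trans ?_
    rw [norm_one]
    linarith
  have hρn : 0 ≤ ρ ^ n := by positivity
  nlinarith

theorem low_dim {N : ℕ} (hN : N ≤ 1) (X : Set (Fin N → ℂ)) (hX : IsCompact X)
    (hne : (hull X \ X).Nonempty) : ¬ NoDisc (hull X \ X) := by
  intro hno
  obtain ⟨z, hz, hzX⟩ := hne
  interval_cases N
  · obtain ⟨x, hx, _⟩ := hz 0
    exact hzX (Subsingleton.elim x z ▸ hx)
  · have hev : ∀ (c : Fin 1 → ℂ) (p : MvPolynomial (Fin 1) ℂ),
        (MvPolynomial.aeval (fun _ : Fin 1 => (Polynomial.X : Polynomial ℂ)) p).eval (c 0) =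
          MvPolynomial.eval c p := by
      intro c p
      induction p using MvPolynomial.induction_on with
      | C a => simp
      | add p q hp hq => rw [map_add, map_add, Polynomial.eval_add, hp, hq]
      | mul_X p j hp =>
        rw [map_mul, map_mul, Polynomial.eval_mul, hp, MvPolynomial.aeval_X,
          Polynomial.eval_X, MvPolynomial.eval_X, Subsingleton.elim j 0]
    have hev' : ∀ (c : Fin 1 → ℂ) (q : Polynomial ℂ),
        MvPolynomial.eval c (Polynomial.aeval (MvPolynomial.X (0 : Fin 1)) q) = q.eval (c 0) := by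
      intro c q
      induction q using Polynomial.induction_on' with
      | add p q hp hq => rw [map_add, map_add, Polynomial.eval_add, hp, hq]
      | monomial n a => simp [Polynomial.aeval_monomial]
    have hcst : ∀ c : Fin 1 → ℂ, (fun _ => c 0) = c := by
      intro c; funext i; rw [Subsingleton.elim i 0]
    obtain ⟨r, hr, hball⟩ := one_dim (K := (fun x : Fin 1 → ℂ => x 0) '' X)
      (hX.image (continuous_apply 0)) (z0 := z 0) (by
        rintro ⟨x, hx, hxz⟩
        apply hzX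
        have : x = z := by rw [← hcst x, ← hcst z]; funext _; exact hxz
        exact this ▸ hx) (by
        intro q
        obtain ⟨x, hx, hle⟩ := hz (Polynomial.aeval (MvPolynomial.X (0 : Fin 1)) q)
        rw [hev', hev'] at hle
        exact ⟨x 0, ⟨x, hx, rfl⟩, hle⟩)
    obtain ⟨c, hc⟩ := hno (fun ζ => fun _ => z 0 + (r : ℂ) * ζ) (by
        refine differentiableOn_pi.2 fun _ => ?_
        fun_prop) (by
        intro ζ hζ
        have hζ' : ‖ζ‖ < 1 := by simpa using hζ
        obtain ⟨h1, h2⟩ := hball (z 0 + (r : ℂ) * ζ) (by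
          rw [add_sub_cancel_left, norm_mul, Complex.norm_real, Real.norm_of_nonneg hr.le]
          nlinarith)
        refine ⟨fun p => ?_, fun hmem => h1 ⟨_, hmem, rfl⟩⟩
        obtain ⟨_, ⟨x, hx, rfl⟩, hle⟩ := h2 (MvPolynomial.aeval
          (fun _ : Fin 1 => (Polynomial.X : Polynomial ℂ)) p)
        refine ⟨x, hx, ?_⟩
        have e1 := hev x p
        have e2 := hev (fun _ => z 0 + (r : ℂ) * ζ) p
        rw [← e1, ← e2]
        exact hle)
    have h0 := congrFun (hc 0 (by simp)) 0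
    have h1 := congrFun (hc (1 / 2) (by simp; norm_num)) 0
    simp only [mul_zero, add_zero] at h0
    rw [← h0] at h1
    have : (r : ℂ) * (1 / 2) = 0 := by linear_combination h1
    have hr' : (r : ℂ) ≠ 0 := by exact_mod_cast hr.ne'
    simp [hr'] at this

/-- The question has a positive answer in `ℂ^N` for every `N ≥ 3`, with no analytic disc in the
whole hull, and a negative one for `N ≤ 1`. -/
theorem result :
    (∀ N : ℕ, 3 ≤ N → ∃ X : Set (Fin N → ℂ), IsCompact X ∧ NoDisc (hull X) ∧ NoDerivation X ∧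
      ∃ z ∈ hull X, z ∉ X ∧ NontrivialPart X z) ∧
    (∀ N : ℕ, N ≤ 1 → ∀ X : Set (Fin N → ℂ), IsCompact X → (hull X \ X).Nonempty →
      ¬ NoDisc (hull X \ X)) := by
  refine ⟨fun N hN => ?_, fun N hN X hX hne => low_dim hN X hX hne⟩
  obtain ⟨X, hX, hd, hD, hp⟩ := three
  exact pad_all hN hX hd hD hp

end Pool.Agent.Results.MP_63d1a1_an.EveryDimension
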